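import Pool.Agent.Work.MP_1ece5f_pr.Uniq

set_option maxHeartbeats 400000

open MeasureTheory Filter Topology
open Pool.Agent.Work.MP_1ece5f_pr

namespace Pool.Agent.Results.MP_1ece5f_pr.MeanLimits

/-- The queue has `k = n + 1` servers. -/
theorem result (n : ℕ) (νS νT : Measure ℝ) [IsProbabilityMeasure νS] [IsProbabilityMeasure νT]
    (hS0 : ∀ᵐ s ∂νS, 0 ≤ s) (hT0 : ∀ᵐ t ∂νT, 0 ≤ t)
    (hS2 : Integrable (fun s => s ^ 2) νS) (hT2 : Integrable (fun t => t ^ 2) νT)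
    (hES : 0 < ∫ s, s ∂νS) (hET : 0 < ∫ t, t ∂νT)
    (ρ : ℝ) (hρ : ρ = (∫ s, s ∂νS) / (((n : ℝ) + 1) * ∫ t, t ∂νT)) (hρ1 : ρ < 1)
    (β : ℝ) (hβ : 0 < β) :
    -- the stationary laws exist and are unique
    (∃! μ : Measure (Fin (n + 1) → ℝ), IsStationary νS νT μ) ∧
    (∀ ε, 0 < ε → ε < 1 / β →
      ∃! μ' : Measure (Fin (n + 1) → ℝ), IsStationary (perturb νS β ε) νT μ') ∧
    -- for these stationary laws
    (∀ (μ : Measure (Fin (n + 1) → ℝ)) (με : ℝ → Measure (Fin (n + 1) → ℝ)),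
      IsStationary νS νT μ →
      (∀ ε, 0 < ε → ε < 1 / β → IsStationary (perturb νS β ε) νT (με ε)) →
      -- all components have finite means
      (∀ i, Integrable (fun w => w i) μ) ∧
      (∀ ε, 0 < ε → ε < 1 / β → ∀ i, Integrable (fun w => w i) (με ε)) ∧
      -- the components `i = 1, …, k - 1`
      (∀ i : Fin n, Tendsto
        (fun ε => (∫ w, w i.castSucc ∂(με ε)) - ∫ w, w i.castSucc ∂μ) (𝓝[>] 0)
        (𝓝 (max (1 - (n + 1) * (1 - ρ)) 0 / ρ *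
          (β ^ 2 * (∫ s, s ^ 2 ∂νS) / (2 * (n + 1) ^ 2 * (1 - ρ) * ∫ t, t ∂νT))))) ∧
      -- the component `i = k` for `ρ ≤ 1 - 1 / k`
      (ρ ≤ 1 - 1 / (n + 1) → Tendsto
        (fun ε => (∫ w, w (Fin.last n) ∂(με ε)) - ∫ w, w (Fin.last n) ∂μ) (𝓝[>] 0)
        (𝓝 (β ^ 2 * (∫ s, s ^ 2 ∂νS) / (2 * ∫ t, t ∂νT)))) ∧
      -- the component `i = k` for `1 - 1 / k ≤ ρ`
      (1 - 1 / (n + 1) ≤ ρ → Tendsto
        (fun ε => (∫ w, w (Fin.last n) ∂(με ε)) - ∫ w, w (Fin.last n) ∂μ) (𝓝[>] 0)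
        (𝓝 (β ^ 2 * (∫ s, s ^ 2 ∂νS) / (2 * ∫ t, t ∂νT) *
          ((ρ + (1 - ρ) * (n : ℝ) ^ 2) / ((n + 1) ^ 2 * ρ * (1 - ρ))))))) := by
  have hlt : ∫ s, s ∂νS < (n + 1) * ∫ t, t ∂νT := by
    rw [hρ, div_lt_one (by positivity)] at hρ1
    exact hρ1
  refine ⟨existsUnique_stationary hS0 hT0 hS2 hT2 hES hlt, ?_, ?_⟩
  · intro ε h1 h2
    have := perturb_prob (νS := νS) β ε
    have e := (perturb_id (β := β) (integrable_id_of_sq hS2) h1).2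
    apply existsUnique_stationary (perturb_nonneg hS0 hβ h1 h2) hT0 (perturb_sq hS2 h1).1 hT2
    · rw [e]
      exact hES
    · rw [e]
      exact hlt
  · intro μ με hμ hμε
    have F : Fam n νS νT μ β με :=
      ⟨⟨inferInstance, inferInstance, hS0, hT0, hS2, hT2, hlt, hμ⟩, hES, hβ, hμε⟩
    obtain ⟨m1, m2, m3⟩ := main F hρ
    exact ⟨fun i => F.base.comp_int i, fun ε h1 h2 i => (F.sys h1 h2).comp_int i, m1, m2, m3⟩

end Pool.Agent.Results.MP_1ece5f_pr.MeanLimits
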